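import Pool.Agent.Lib_helper59.PV.PhaseErgodic

/-! Project HE (MP_b08f5f_an), block EB: Birkhoff and Markov for the bad windows. -/

set_option autoImplicit false

namespace Pool.Agent.Lib_helper12.HE

open MeasureTheory Filter Topology Set
open scoped ENNReal

noncomputable section

/-- the fraction of the first `n` points of the orbit in `W` -/
def EB_avg {α : Type*} (τ : α → α) (W : Set α) (n : ℕ) (x : α) : ℝ≥0∞ :=
  (n : ℝ≥0∞)⁻¹ * ∑ k ∈ Finset.range n, W.indicator (fun _ => (1 : ℝ≥0∞)) (τ^[k] x)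

theorem EB_avg_eq {α : Type*} (τ : α → α) (W : Set α) {n : ℕ} (hn : 0 < n) (x : α) :
    ENNReal.ofReal ((∑ k ∈ Finset.range n, W.indicator (fun _ => (1 : ℝ)) (τ^[k] x)) / n) =
      EB_avg τ W n x := by
  have hn' : (0 : ℝ) < n := by exact_mod_cast hn
  have hnn : ∀ k ∈ Finset.range n, (0 : ℝ) ≤ W.indicator (fun _ => (1 : ℝ)) (τ^[k] x) :=
    fun k _ => Set.indicator_nonneg (fun _ _ => zero_le_one) _
  rw [ENNReal.ofReal_div_of_pos hn', ENNReal.ofReal_natCast, ENNReal.ofReal_sum_of_nonneg hnn,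
    ENNReal.div_eq_inv_mul]
  unfold EB_avg
  congr 1
  refine Finset.sum_congr rfl fun k _ => ?_
  by_cases h : τ^[k] x ∈ W
  · rw [Set.indicator_of_mem h, Set.indicator_of_mem h, ENNReal.ofReal_one]
  · rw [Set.indicator_of_notMem h, Set.indicator_of_notMem h, ENNReal.ofReal_zero]

theorem EB_windows {α : Type*} [MeasurableSpace α] {μ : Measure α} [IsFiniteMeasure μ]
    {τ : α → α} (hτ : MeasurePreserving τ μ μ) {W : Set α} (hW : MeasurableSet W) {δ : ℝ}
    (hδ : 0 < δ) : ∃ D : Set α, μ D ≤ ENNReal.ofReal (1 / δ) * μ W ∧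
      ∀ x ∉ D, ∃ l ≤ δ, Tendsto (fun n : ℕ =>
        (∑ k ∈ Finset.range n, W.indicator (fun _ => (1 : ℝ)) (τ^[k] x)) / n) atTop (𝓝 l) := by
  have hbirk := Pool.Agent.Lib_helper25.PV.birkhoff hτ
    (f := W.indicator fun _ => (1 : ℝ)) (measurable_const.indicator hW) (C := 1) (fun x => by
      by_cases h : x ∈ W
      · rw [Set.indicator_of_mem h, abs_one]
      · rw [Set.indicator_of_notMem h, abs_zero]
        exact zero_le_one)
  have hmeas1 : Measurable (W.indicator fun _ => (1 : ℝ≥0∞)) := measurable_const.indicator hW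
  have hmeask : ∀ k, Measurable fun x => W.indicator (fun _ => (1 : ℝ≥0∞)) (τ^[k] x) :=
    fun k => hmeas1.comp (hτ.iterate k).measurable
  have hmeas : ∀ n, Measurable (EB_avg τ W n) := fun n =>
    (Finset.measurable_sum _ fun k _ => hmeask k).const_mul _
  have hint : ∀ n, 0 < n → ∫⁻ x, EB_avg τ W n x ∂μ = μ W := by
    intro n hn
    unfold EB_avg
    rw [lintegral_const_mul _ (Finset.measurable_sum _ fun k _ => hmeask k),
      lintegral_finsetSum _ fun k _ => hmeask k]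
    have h1 : ∀ k ∈ Finset.range n,
        ∫⁻ x, W.indicator (fun _ => (1 : ℝ≥0∞)) (τ^[k] x) ∂μ = μ W := by
      intro k _
      rw [(hτ.iterate k).lintegral_comp hmeas1, lintegral_indicator_const hW, one_mul]
    rw [Finset.sum_congr rfl h1, Finset.sum_const, Finset.card_range, nsmul_eq_mul, ← mul_assoc,
      ENNReal.inv_mul_cancel (by exact_mod_cast hn.ne') (ENNReal.natCast_ne_top n), one_mul]
  set G : α → ℝ≥0∞ := fun x => liminf (fun n => EB_avg τ W n x) atTop with hG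
  have hGm : Measurable G := Measurable.liminf hmeas
  have hGint : ∫⁻ x, G x ∂μ ≤ μ W := by
    refine (lintegral_liminf_le hmeas).trans ?_
    refine le_of_eq ?_
    refine Tendsto.liminf_eq ?_
    refine tendsto_const_nhds.congr' ?_
    filter_upwards [eventually_gt_atTop 0] with n hn
    exact (hint n hn).symm
  refine ⟨{x | ¬ ∃ l : ℝ, Tendsto (fun n : ℕ => (∑ k ∈ Finset.range n,
      W.indicator (fun _ => (1 : ℝ)) (τ^[k] x)) / n) atTop (𝓝 l)} ∪
      {x | ENNReal.ofReal δ ≤ G x}, ?_, ?_⟩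
  · have h1 : μ {x | ¬ ∃ l : ℝ, Tendsto (fun n : ℕ => (∑ k ∈ Finset.range n,
        W.indicator (fun _ => (1 : ℝ)) (τ^[k] x)) / n) atTop (𝓝 l)} = 0 := ae_iff.1 hbirk
    have h2 : μ {x | ENNReal.ofReal δ ≤ G x} ≤ (∫⁻ x, G x ∂μ) / ENNReal.ofReal δ :=
      meas_ge_le_lintegral_div hGm.aemeasurable (ENNReal.ofReal_pos.2 hδ).ne'
        ENNReal.ofReal_ne_top
    calc μ ({x | ¬ ∃ l : ℝ, Tendsto (fun n : ℕ => (∑ k ∈ Finset.range n,
          W.indicator (fun _ => (1 : ℝ)) (τ^[k] x)) / n) atTop (𝓝 l)} ∪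
          {x | ENNReal.ofReal δ ≤ G x})
        ≤ 0 + (∫⁻ x, G x ∂μ) / ENNReal.ofReal δ := by
          refine (measure_union_le _ _).trans (add_le_add h1.le h2)
      _ ≤ μ W / ENNReal.ofReal δ := by
          rw [zero_add]
          exact ENNReal.div_le_div_right hGint _
      _ = ENNReal.ofReal (1 / δ) * μ W := by
          rw [one_div, ENNReal.ofReal_inv_of_pos hδ, ENNReal.div_eq_inv_mul]
  · intro x hx
    rw [Set.mem_union, not_or] at hx
    have h1 : ∃ l : ℝ, Tendsto (fun n : ℕ => (∑ k ∈ Finset.range n,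
        W.indicator (fun _ => (1 : ℝ)) (τ^[k] x)) / n) atTop (𝓝 l) := not_not.1 hx.1
    obtain ⟨l, hl⟩ := h1
    have h2 : ¬ ENNReal.ofReal δ ≤ G x := hx.2
    have h3 : G x = ENNReal.ofReal l := by
      refine Tendsto.liminf_eq ?_
      refine ((ENNReal.continuous_ofReal.tendsto l).comp hl).congr' ?_
      filter_upwards [eventually_gt_atTop 0] with n hn
      exact EB_avg_eq τ W hn x
    rw [h3, not_le] at h2
    exact ⟨l, ((ENNReal.ofReal_lt_ofReal_iff hδ).1 h2).le, hl⟩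

end

end Pool.Agent.Lib_helper12.HE
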